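import Mathlib
import Pool.Agent.Helper126.Fact

/-!
# Face-separating maps from Tychonoff cubes
-/

set_option autoImplicit false

open Set Topology Filter unitInterval

universe u v

namespace Pool.Agent.V8H78.TychCube

open Pool.Agent.Helper126 (delta_system uncountable_fiber)

/-- A map from a Tychonoff cube is face-separating if it separates any two points which lie in
opposite faces of the cube. -/
def FaceSep {S X : Type*} (g : (S → I) → X) : Prop :=
  ∀ (z z' : S → I) (ξ : S), z ξ = 0 → z' ξ = 1 → g z ≠ g z'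

/-- `X` admits no face-separating continuous map from an uncountable Tychonoff cube. -/
def NoFace (X : Type u) [TopologicalSpace X] : Prop :=
  ∀ (S : Type v) [Uncountable S] (g : (S → I) → X), Continuous g → ¬ FaceSep g

/-! ### The trick: from face-separating maps to injective maps -/

/-- the piecewise linear function which is `0` up to `p` and `1` from `q` on -/
noncomputable def ramp (p q : ℝ) (r : I) : I := Set.projIcc 0 1 zero_le_one (((r : ℝ) - p) / (q - p))

theorem continuous_ramp (p q : ℝ) : Continuous (ramp p q) := by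
  unfold ramp
  exact continuous_projIcc.comp ((continuous_subtype_val.sub continuous_const).div_const _)

theorem ramp_zero {p q : ℝ} (hpq : p < q) {r : I} (hr : (r : ℝ) ≤ p) : ramp p q r = 0 := by
  unfold ramp
  exact Set.projIcc_of_le_left zero_le_one (div_nonpos_of_nonpos_of_nonneg (by linarith) (by linarith))

theorem ramp_one {p q : ℝ} (hpq : p < q) {r : I} (hr : q ≤ (r : ℝ)) : ramp p q r = 1 := by
  unfold ramp
  refine Set.projIcc_of_right_le zero_le_one ?_
  rw [le_div_iff₀ (by linarith)]
  linarith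

/-- If there is a face-separating continuous map from a Tychonoff cube with infinitely many
coordinates, then the same cube has an injective continuous map to the same space. -/
theorem injective_of_faceSep {X : Type u} [TopologicalSpace X] {S : Type v} [Infinite S]
    {g : (S → I) → X} (hg : Continuous g) (hf : FaceSep g) :
    ∃ g' : (S → I) → X, Continuous g' ∧ Function.Injective g' := by
  have h1 : Nonempty (S ≃ S × (ℚ × ℚ)) := by
    rw [← Cardinal.lift_mk_eq'.{v, v}]
    simp only [Cardinal.mk_prod, Cardinal.lift_id, Cardinal.mk_eq_aleph0, 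
      Cardinal.lift_aleph0, Cardinal.lift_uzero]
    rw [Cardinal.mul_aleph0_eq (Cardinal.aleph0_le_mk S)]
  obtain ⟨ε⟩ := h1
  let τ : (S → I) → (S → I) := fun s ξ => ramp (ε ξ).2.1 (ε ξ).2.2 (s (ε ξ).1)
  have hτ : Continuous τ := by
    refine continuous_pi fun ξ => ?_
    exact (continuous_ramp _ _).comp (continuous_apply _)
  have key : ∀ s s' : S → I, ∀ η, (s η : ℝ) < s' η → g (τ s) ≠ g (τ s') := by
    intro s s' η hη
    obtain ⟨p, hp1, hp2⟩ := exists_rat_btwn hη
    obtain ⟨q, hq1, hq2⟩ := exists_rat_btwn hp2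
    refine hf (τ s) (τ s') (ε.symm (η, (p, q))) ?_ ?_
    · show ramp _ _ _ = 0
      rw [Equiv.apply_symm_apply]
      exact ramp_zero (by exact_mod_cast hq1) hp1.le
    · show ramp _ _ _ = 1
      rw [Equiv.apply_symm_apply]
      exact ramp_one (by exact_mod_cast hq1) hq2.le
  refine ⟨fun s => g (τ s), hg.comp hτ, ?_⟩
  intro s s' hss
  funext η
  rcases lt_trichotomy (s η : ℝ) (s' η) with h | h | h
  · exact absurd hss (key s s' η h)
  · exact Subtype.ext h
  · exact absurd hss.symm (key s' s η h)

/-! ### Amalgamation -/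

/-- amalgamation of finite conditions with values in a countable set -/
theorem amalgN {J : Type*} (S : Set J) (hS : ¬ S.Countable) (G : J → Finset J)
    (s : J → J → ℕ) : ∃ S' ⊆ S, ¬ S'.Countable ∧ ∃ t : J → ℕ,
      ∀ β ∈ S', ∀ j ∈ G β, j ≠ β → (j ∉ S' ∧ t j = s β j) := by
  classical
  obtain ⟨S1, R, h1, h2, h3, h4⟩ := delta_system (fun β => insert β (G β)) S hS
  have h5 : ¬ (S1 \ (R : Set J)).Countable := by
    intro h
    apply h2
    refine ((h.union R.countable_toSet)).mono ?_
    intro x hx
    by_cases hxR : x ∈ (R : Set J)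
    · exact Or.inr hxR
    · exact Or.inl ⟨hx, hxR⟩
  obtain ⟨r, hr⟩ := uncountable_fiber (fun β => fun j : R => s β j) (S1 \ (R : Set J)) h5
  set S3 := {β ∈ S1 \ (R : Set J) | (fun j : R => s β j) = r} with hS3
  refine ⟨S3, fun β hβ => h1 hβ.1.1, hr, fun j =>
    if hj : j ∈ R then r ⟨j, hj⟩ else
      if h : ∃ β ∈ S3, j ∈ G β then s h.choose j else 0, ?_⟩
  intro β hβ j hj hjβ
  constructor
  · intro hjS
    have h6 := h4 β hβ.1.1 j hjS.1.1 (Ne.symm hjβ) j (Finset.mem_insert_of_mem hj)
      (Finset.mem_insert_self _ _)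
    exact hjS.1.2 h6
  · by_cases hjR : j ∈ R
    · simp only [hjR, dif_pos]
      have := congrFun hβ.2 ⟨j, hjR⟩
      exact this.symm
    · have hex : ∃ β ∈ S3, j ∈ G β := ⟨β, hβ, hj⟩
      simp only [hjR, hex, dif_pos, dif_neg, not_false_eq_true]
      obtain ⟨h7, h8⟩ := hex.choose_spec
      have h9 : hex.choose = β := by
        by_contra hne
        exact hjR (h4 _ h7.1.1 β hβ.1.1 hne j (Finset.mem_insert_of_mem h8)
          (Finset.mem_insert_of_mem hj))
      rw [h9]

/-! ### Boxes -/

/-- a dense sequence in the unit interval -/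
noncomputable def qI : ℕ → I := TopologicalSpace.denseSeq I

theorem exists_qI {U : Set I} (hU : IsOpen U) {x : I} (hx : x ∈ U) : ∃ n, qI n ∈ U :=
  (TopologicalSpace.denseRange_denseSeq I).exists_mem_open hU ⟨x, hx⟩

theorem exists_box {J : Type*} {U : Set (J → I)} (hU : IsOpen U) {d : J → I} (hd : d ∈ U) :
    ∃ (G : Finset J) (u : J → Set I), (∀ j ∈ G, IsOpen (u j) ∧ d j ∈ u j) ∧
      ∀ z : J → I, (∀ j ∈ G, z j ∈ u j) → z ∈ U := by
  obtain ⟨G, u, hu, hs⟩ := isOpen_pi_iff.1 hU d hd
  exact ⟨G, u, hu, fun z hz => hs hz⟩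

/-- cylinders inside an open set, with rational values -/
theorem exists_cylN {J : Type*} {U : Set (J → I)} (hU : IsOpen U) {d : J → I} (hd : d ∈ U) :
    ∃ (G : Finset J) (s : J → ℕ), ∀ z : J → I, (∀ j ∈ G, z j = qI (s j)) → z ∈ U := by
  obtain ⟨G, u, hu, hs⟩ := exists_box hU hd
  have h1 : ∀ j, ∃ n, j ∈ G → qI n ∈ u j := by
    intro j
    by_cases hj : j ∈ G
    · obtain ⟨n, hn⟩ := exists_qI (hu j hj).1 (hu j hj).2
      exact ⟨n, fun _ => hn⟩
    · exact ⟨0, fun h => absurd h hj⟩
  choose s hs' using h1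
  exact ⟨G, s, fun z hz => hs z fun j hj => by rw [hz j hj]; exact hs' j hj⟩

/-- two points which differ only at `β` have neighbourhoods given by the same finite condition with
rational values -/
theorem two_faces {J : Type*} [DecidableEq J] {U W : Set (J → I)} (hU : IsOpen U) (hW : IsOpen W)
    {d : J → I} {β : J} {a b : I} (ha : Function.update d β a ∈ U)
    (hb : Function.update d β b ∈ W) :
    ∃ (G : Finset J) (s : J → ℕ), ∀ z : J → I, (∀ j ∈ G, j ≠ β → z j = qI (s j)) →
      (z β = a → z ∈ U) ∧ (z β = b → z ∈ W) := by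
  obtain ⟨G1, u1, hu1, hs1⟩ := exists_box hU ha
  obtain ⟨G2, u2, hu2, hs2⟩ := exists_box hW hb
  have h1 : ∀ j, ∃ n, j ≠ β → (j ∈ G1 → qI n ∈ u1 j) ∧ (j ∈ G2 → qI n ∈ u2 j) := by
    intro j
    by_cases hjβ : j = β
    · exact ⟨0, fun h => absurd hjβ h⟩
    · by_cases hj1 : j ∈ G1 <;> by_cases hj2 : j ∈ G2
      · have e1 := hu1 j hj1
        have e2 := hu2 j hj2
        rw [Function.update_of_ne hjβ] at e1 e2
        obtain ⟨n, hn⟩ := exists_qI (e1.1.inter e2.1) (show d j ∈ u1 j ∩ u2 j from ⟨e1.2, e2.2⟩)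
        exact ⟨n, fun _ => ⟨fun _ => hn.1, fun _ => hn.2⟩⟩
      · have e1 := hu1 j hj1
        obtain ⟨n, hn⟩ := exists_qI e1.1 e1.2
        exact ⟨n, fun _ => ⟨fun _ => hn, fun h => absurd h hj2⟩⟩
      · have e2 := hu2 j hj2
        obtain ⟨n, hn⟩ := exists_qI e2.1 e2.2
        exact ⟨n, fun _ => ⟨fun h => absurd h hj1, fun _ => hn⟩⟩
      · exact ⟨0, fun _ => ⟨fun h => absurd h hj1, fun h => absurd h hj2⟩⟩
  choose s hs using h1
  refine ⟨G1 ∪ G2, s, fun z hz => ⟨fun hza => hs1 z fun j hj => ?_, fun hzb => hs2 z fun j hj => ?_⟩⟩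
  · by_cases hjβ : j = β
    · have e1 := (hu1 j hj).2
      rw [hjβ, Function.update_self] at e1
      rw [hjβ, hza]
      exact e1
    · rw [hz j (Finset.mem_union_left _ hj) hjβ]
      exact (hs j hjβ).1 hj
  · by_cases hjβ : j = β
    · have e1 := (hu2 j hj).2
      rw [hjβ, Function.update_self] at e1
      rw [hjβ, hzb]
      exact e1
    · rw [hz j (Finset.mem_union_right _ hj) hjβ]
      exact (hs j hjβ).2 hj

/-! ### Segments and extensions -/

/-- the affine path from `a` to `b` -/
noncomputable def lin (a b e : I) : I :=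
  ⟨(1 - (e : ℝ)) * a + e * b, by
    have h1 := a.2.1; have h2 := a.2.2; have h3 := b.2.1; have h4 := b.2.2
    have h5 := e.2.1; have h6 := e.2.2
    constructor
    · exact add_nonneg (mul_nonneg (by linarith) h1) (mul_nonneg h5 h3)
    · nlinarith⟩

theorem continuous_lin (a b : I) : Continuous (lin a b) := by
  unfold lin
  fun_prop

theorem lin_zero (a b : I) : lin a b 0 = a := by
  apply Subtype.ext
  simp [lin]

theorem lin_one (a b : I) : lin a b 1 = b := by
  apply Subtype.ext
  simp [lin]

open Classical in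
/-- the embedding of the cube `I ^ S'` in the cube `I ^ J` which moves on the segment from `a β` to
`b β` in the coordinates `β ∈ S'` and is constant in the others -/
noncomputable def extI {J : Type*} (S : Set J) (t : J → ℕ) (a b : J → I) (e : S → I) : J → I :=
  fun j => if hj : j ∈ S then lin (a j) (b j) (e ⟨j, hj⟩) else qI (t j)

theorem continuous_extI {J : Type*} (S : Set J) (t : J → ℕ) (a b : J → I) :
    Continuous (extI S t a b) := by
  apply continuous_pi
  intro j
  by_cases hj : j ∈ S
  · simp only [extI, hj, dif_pos]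
    exact (continuous_lin _ _).comp (continuous_apply _)
  · simp only [extI, hj, dif_neg, not_false_eq_true]
    exact continuous_const

theorem extI_mem {J : Type*} {S : Set J} {t : J → ℕ} {a b : J → I} {e : S → I} {j : J}
    (hj : j ∈ S) : extI S t a b e j = lin (a j) (b j) (e ⟨j, hj⟩) := by simp [extI, hj]

theorem extI_not_mem {J : Type*} {S : Set J} {t : J → ℕ} {a b : J → I} {e : S → I} {j : J}
    (hj : j ∉ S) : extI S t a b e j = qI (t j) := by simp [extI, hj]

end Pool.Agent.V8H78.TychCube
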