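import Mathlib
import Pool.Agent.H69R3.Ctl
import Pool.Agent.V8H78.TychCube.Basic

/-!
# Independent maps from a Tychonoff cube into `C_p(C_p(X))`
-/

set_option autoImplicit false

open Set Topology Filter unitInterval

universe u v

namespace Pool.Agent.V8H78.TychCube

open Pool.Agent.Helper126 (delta_system uncountable_fiber)
open Pool.Agent.H69R3 (Cp Ctl local_cont interp)

open Classical in
/-- A continuous map from a Tychonoff cube to a space which admits no face-separating map from an
uncountable Tychonoff cube depends on countably many coordinates. -/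
theorem countable_support3 {X : Type u} [TopologicalSpace X] [T2Space X]
    (hN : NoFace.{u, v} X) {J : Type v} (g : (J → I) → X) (hg : Continuous g) :
    {β : J | ∃ d a, g (Function.update d β a) ≠ g d}.Countable := by
  classical
  by_contra hS
  have key : ∀ β ∈ {β : J | ∃ d a, g (Function.update d β a) ≠ g d},
      ∃ (G : Finset J) (s : J → ℕ) (a b : I), ∀ z z' : J → I,
        (∀ j ∈ G, j ≠ β → z j = qI (s j)) → (∀ j ∈ G, j ≠ β → z' j = qI (s j)) →
        z β = a → z' β = b → g z ≠ g z' := by
    rintro β ⟨d, a, hda⟩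
    obtain ⟨U, W, hU, hW, hxU, hxW, hUW⟩ := t2_separation hda
    obtain ⟨G, s, hs⟩ := two_faces (U := g ⁻¹' U) (W := g ⁻¹' W) (hU.preimage hg) (hW.preimage hg)
      (d := d) (β := β) (a := a) (b := d β) hxU (by rw [Function.update_eq_self]; exact hxW)
    refine ⟨G, s, a, d β, fun z z' hz hz' hza hzb heq => ?_⟩
    have e1 : g z ∈ U := (hs z hz).1 hza
    have e2 : g z' ∈ W := (hs z' hz').2 hzb
    exact disjoint_left.1 hUW e1 (heq ▸ e2)
  choose! G s a b hGs using key
  obtain ⟨S', hS'S, hS', t, ht⟩ := amalgN _ hS G s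
  have : Uncountable S' := by
    rw [← not_countable_iff]
    exact fun h => hS' (Set.countable_coe_iff.1 h)
  refine hN S' (fun e => g (extI S' t a b e)) (hg.comp (continuous_extI S' t a b)) ?_
  intro e e' β he he'
  refine hGs β (hS'S β.2) (extI S' t a b e) (extI S' t a b e') ?_ ?_ ?_ ?_
  · intro j hj hjβ
    obtain ⟨h4, h5⟩ := ht β β.2 j hj hjβ
    rw [extI_not_mem h4, h5]
  · intro j hj hjβ
    obtain ⟨h4, h5⟩ := ht β β.2 j hj hjβ
    rw [extI_not_mem h4, h5]
  · rw [extI_mem β.2]
    show lin _ _ (e β) = _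
    rw [he, lin_zero]
  · rw [extI_mem β.2]
    show lin _ _ (e' β) = _
    rw [he', lin_one]

theorem continuous_piecewise_I {J : Type*} [DecidableEq J] (G : Finset J) (s : J → I) :
    Continuous fun d : J → I => G.piecewise s d := by
  apply continuous_pi
  intro j
  by_cases hj : j ∈ G
  · simp only [Finset.piecewise_eq_of_mem _ _ _ hj]
    exact continuous_const
  · simp only [Finset.piecewise_eq_of_notMem _ _ _ hj]
    exact continuous_apply j

theorem continuous_upd {J : Type*} [DecidableEq J] (β : J) (a : I) :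
    Continuous fun d : J → I => Function.update d β a :=
  continuous_id.update β continuous_const

/-- The main combinatorial theorem for Tychonoff cubes: if the compact space `X` admits no
face-separating continuous map from an uncountable Tychonoff cube, then an uncountable Tychonoff cube
cannot be mapped into `C_p(C_p(X))` by a map which is independent on functions `h β`. -/
theorem core3 {X : Type u} [TopologicalSpace X] [CompactSpace X] [T2Space X]
    (hN : NoFace.{u, v} X)
    {J : Type v} [Uncountable J] (Φ : (J → I) → Cp X → ℝ) (h1 : ∀ f, Continuous fun d => Φ d f)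
    (h2 : ∀ d, Continuous (Φ d)) (h : J → Cp X)
    (hf : ∀ d β, d β = 0 → Φ d (h β) ≤ 0) (ht : ∀ d β, d β = 1 → 1 ≤ Φ d (h β)) : False := by
  classical
  rcases isEmpty_or_nonempty X with hX | hX
  · have hinf : Infinite J := inferInstance
    obtain ⟨β⟩ : Nonempty J := inferInstance
    obtain ⟨γ, hγ⟩ := exists_ne β
    have e1 := hf (Function.update (fun _ => 0) γ 1) β (by rw [Function.update_of_ne hγ.symm])
    have e2 := ht (Function.update (fun _ => 0) γ 1) γ (by rw [Function.update_self])
    have e3 : h β = h γ := Subtype.ext (funext fun x => (hX.false x).elim)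
    rw [e3] at e1
    linarith
  have key : ∀ β : J, ∃ (n : ℕ) (G : Finset J) (s : J → ℕ) (E : (J → I) → Finset X)
      (c : Set J), c.Countable ∧ (∀ γ ∉ c, ∀ d a, E (Function.update d γ a) = E d) ∧
      ∀ d : J → I, (∀ j ∈ G, j ≠ β → d j = qI (s j)) → ∀ f : Cp X,
        (∀ x ∈ E d, |f.1 x - (h β).1 x| < 1 / (n + 1 : ℝ)) →
        |Φ (Function.update d β 0) f - Φ (Function.update d β 0) (h β)| ≤ 1 / 3 ∧
        |Φ (Function.update d β 1) f - Φ (Function.update d β 1) (h β)| ≤ 1 / 3 := by
    intro β
    obtain ⟨V, hVo, hVn, δ, hδ, k, F, hFc, hF⟩ := local_cont (D := J → I) (X := X)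
      (Θ := fun d f => max
        |Φ (Function.update d β 0) f - Φ (Function.update d β 0) (h β)|
        |Φ (Function.update d β 1) f - Φ (Function.update d β 1) (h β)|)
      (fun f => ((((h1 f).comp (continuous_upd β 0)).sub
          ((h1 (h β)).comp (continuous_upd β 0))).abs).max
        ((((h1 f).comp (continuous_upd β 1)).sub ((h1 (h β)).comp (continuous_upd β 1))).abs))
      (fun d => (((h2 (Function.update d β 0)).sub continuous_const).abs).max
        (((h2 (Function.update d β 1)).sub continuous_const).abs)) (h β)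
      (by norm_num : (0 : ℝ) < 1 / 3)
    obtain ⟨s0, hs0⟩ := hVn
    obtain ⟨G, s, hG⟩ := exists_cylN hVo hs0
    obtain ⟨n, hn⟩ := exists_nat_one_div_lt hδ
    have hr : Continuous fun d : J → I => G.piecewise (fun j => qI (s j)) d :=
      continuous_piecewise_I G _
    have hrV : ∀ d : J → I, G.piecewise (fun j => qI (s j)) d ∈ V := fun d =>
      hG _ fun j hj => Finset.piecewise_eq_of_mem _ _ _ hj
    have hgc : Continuous fun d : J → I => F (G.piecewise (fun j => qI (s j)) d) := by
      rw [← continuousOn_univ]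
      exact hFc.comp hr.continuousOn fun d _ => hrV d
    refine ⟨n, G, s, fun d => Finset.univ.image (F (G.piecewise (fun j => qI (s j)) d)),
      ⋃ a : Fin k, {γ : J | ∃ d b, F (G.piecewise (fun j => qI (s j)) (Function.update d γ b)) a ≠
        F (G.piecewise (fun j => qI (s j)) d) a}, ?_, ?_, ?_⟩
    · exact countable_iUnion fun a => countable_support3 hN
        (fun d => F (G.piecewise (fun j => qI (s j)) d) a) ((continuous_apply a).comp hgc)
    · intro γ hγ d b
      have : F (G.piecewise (fun j => qI (s j)) (Function.update d γ b)) =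
          F (G.piecewise (fun j => qI (s j)) d) := by
        funext a
        by_contra hne
        exact hγ (mem_iUnion.2 ⟨a, d, b, hne⟩)
      simp only [this]
    · intro d hd f hfd
      have e1 := hF _ (hrV d) f (by
        intro a
        exact (hfd _ (Finset.mem_image_of_mem _ (Finset.mem_univ a))).trans hn)
      simp only [sub_self, abs_zero, max_self, sub_zero] at e1
      rw [abs_of_nonneg (le_max_of_le_left (abs_nonneg _))] at e1
      have hupd : ∀ a : I, Function.update (G.piecewise (fun j => qI (s j)) d) β a =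
          Function.update d β a := by
        intro a
        funext j
        by_cases hjβ : j = β
        · rw [hjβ, Function.update_self, Function.update_self]
        · rw [Function.update_of_ne hjβ, Function.update_of_ne hjβ]
          by_cases hjG : j ∈ G
          · rw [Finset.piecewise_eq_of_mem _ _ _ hjG, hd j hjG hjβ]
          · rw [Finset.piecewise_eq_of_notMem _ _ _ hjG]
      rw [hupd, hupd] at e1
      exact max_le_iff.1 e1
  choose n G s E c hc hE hctl using key
  have hU : ¬ (univ : Set J).Countable := Set.not_countable_univ_iff.2 inferInstance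
  obtain ⟨m, hm⟩ := uncountable_fiber n univ hU
  obtain ⟨S, hSm, hS, t, hSt⟩ := amalgN _ hm G s
  have hnS : ∀ β ∈ S, n β = m := fun β hβ => (hSm hβ).2
  have hδ : (0 : ℝ) < 1 / (m + 1 : ℝ) := by positivity
  set d0 : J → I := fun j => if j ∈ S then 0 else qI (t j) with hd0
  have hd0S : ∀ β ∈ S, d0 β = 0 := by
    intro β hβ
    rw [hd0]
    simp only [hβ, if_true]
  have hupd0 : ∀ β ∈ S, Function.update d0 β 0 = d0 := by
    intro β hβ
    rw [← hd0S β hβ, Function.update_eq_self]
  -- coincidences
  have hco : ∀ β ∈ S, ∀ γ ∈ S, β ≠ γ → γ ∉ c β → ∃ x ∈ E β d0, x ∈ E γ d0 ∧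
      2 * (1 / (m + 1 : ℝ)) ≤ |(h β).1 x - (h γ).1 x| := by
    intro β hβ γ hγ hβγ hγc
    by_contra hcon
    push Not at hcon
    obtain ⟨f, hfv⟩ := interp (E β d0 ∪ E γ d0) fun x =>
      if x ∈ E β d0 then
        (if x ∈ E γ d0 then ((h β).1 x + (h γ).1 x) / 2 else (h β).1 x)
      else (h γ).1 x
    have g1 := (hctl β (Function.update d0 γ 1) (by
      intro j hj hjβ
      obtain ⟨h4, h5⟩ := hSt β hβ j hj hjβ
      have h6 : j ≠ γ := fun h => h4 (h ▸ hγ)
      rw [Function.update_of_ne h6, hd0]
      simp only [h4, if_false]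
      rw [h5]) f (by
      rw [hE β γ hγc d0, hnS β hβ]
      intro x hx
      rw [hfv _ (Finset.mem_union_left _ hx), if_pos hx]
      by_cases hx2 : x ∈ E γ d0
      · rw [if_pos hx2]
        have := hcon _ hx hx2
        rw [abs_lt] at this ⊢
        constructor <;> linarith [this.1, this.2]
      · rw [if_neg hx2, sub_self, abs_zero]
        exact hδ)).1
    have g2 := (hctl γ d0 (by
      intro j hj hjβ
      obtain ⟨h4, h5⟩ := hSt γ hγ j hj hjβ
      rw [hd0]
      simp only [h4, if_false]
      rw [h5]) f (by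
      rw [hnS γ hγ]
      intro x hx
      rw [hfv _ (Finset.mem_union_right _ hx)]
      by_cases hx2 : x ∈ E β d0
      · rw [if_pos hx2, if_pos hx]
        have := hcon _ hx2 hx
        rw [abs_lt] at this ⊢
        constructor <;> linarith [this.1, this.2]
      · rw [if_neg hx2, sub_self, abs_zero]
        exact hδ)).2
    have hcomm : Function.update (Function.update d0 γ 1) β 0 = Function.update d0 γ 1 := by
      rw [Function.update_comm hβγ.symm, hupd0 β hβ]
    rw [hcomm] at g1
    have e3 : Φ (Function.update d0 γ 1) (h β) ≤ 0 := hf _ _ (by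
      rw [Function.update_of_ne hβγ, hd0S β hβ])
    have e4 : 1 ≤ Φ (Function.update d0 γ 1) (h γ) := ht _ _ (by
      rw [Function.update_self])
    rw [abs_le] at g1 g2
    linarith [g1.1, g1.2, g2.1, g2.2]
  -- Delta system
  obtain ⟨S1, R, hS1S, hS1, hR, hdis⟩ := delta_system (fun β => E β d0) S hS
  obtain ⟨r, hr⟩ := uncountable_fiber
    (fun β => fun x : R => ⌊(h β).1 x * (m + 1 : ℝ)⌋) S1 hS1
  obtain ⟨β, hβ⟩ : {i ∈ S1 | (fun x : R => ⌊(h i).1 x * (m + 1 : ℝ)⌋) = r}.Nonempty := by
    by_contra hne
    rw [not_nonempty_iff_eq_empty] at hne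
    rw [hne] at hr
    exact hr countable_empty
  obtain ⟨γ, hγ, hγc⟩ : ∃ γ ∈ {i ∈ S1 | (fun x : R => ⌊(h i).1 x * (m + 1 : ℝ)⌋) = r},
      γ ∉ insert β (c β) := by
    by_contra hcon
    push Not at hcon
    exact hr (((hc β).insert β).mono hcon)
  have hne : β ≠ γ := fun h => hγc (by rw [h]; exact mem_insert _ _)
  obtain ⟨x, hxβ, hxγ, hx⟩ := hco β (hS1S hβ.1) γ (hS1S hγ.1) hne
    fun h => hγc (mem_insert_of_mem _ h)
  have hxR := hdis β hβ.1 γ hγ.1 hne x hxβ hxγ
  have h3 : ⌊(h β).1 x * (m + 1 : ℝ)⌋ = ⌊(h γ).1 x * (m + 1 : ℝ)⌋ := by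
    have e1 := congrFun hβ.2 ⟨x, hxR⟩
    have e2 := congrFun hγ.2 ⟨x, hxR⟩
    simp only at e1 e2
    rw [e1, e2]
  have h4 : |(h β).1 x * (m + 1 : ℝ) - (h γ).1 x * (m + 1 : ℝ)| < 1 :=
    Int.abs_sub_lt_one_of_floor_eq_floor h3
  rw [← sub_mul, abs_mul, abs_of_pos (by positivity : (0 : ℝ) < m + 1)] at h4
  have h5 : |(h β).1 x - (h γ).1 x| < 1 / (m + 1 : ℝ) := by
    rw [lt_div_iff₀ (by positivity)]
    exact h4
  linarith

end Pool.Agent.V8H78.TychCube
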