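import Mathlib
import Pool.Agent.H69R3.Extendial
import Pool.Agent.V8H78.TychCube.Core3

/-!
# Compact spaces which are t-embedded in Tychonoff cubes
-/

set_option autoImplicit false

open Set Topology Filter unitInterval

universe u v w

namespace Pool.Agent.V8H78.TychCube

open Pool.Agent.Helper126 (delta_system uncountable_fiber)
open Pool.Agent.H69R3 (Cp interp)

/-- Let `X` be compact and t-embedded in a Tychonoff cube. If `X` admits no face-separating
continuous map from an uncountable Tychonoff cube, then `X` is metrizable. -/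
theorem metrizable_of_cube3 {X : Type u} [TopologicalSpace X] [CompactSpace X] [T2Space X]
    (hN : NoFace.{u, v} X)
    {κ : Type v} (e : X → κ → I) (he : Continuous e)
    (ψ : Cp X → Cp (κ → I)) (hψ : Continuous ψ)
    (hψe : ∀ f x, (ψ f).1 (e x) = f.1 x) : TopologicalSpace.MetrizableSpace X := by
  classical
  have hΨ1 : ∀ f, Continuous fun d => (ψ f).1 d := fun f => (ψ f).2
  have hΨ2 : ∀ d : κ → I, Continuous (fun f => (ψ f).1 d) := fun d =>
    (continuous_apply d).comp (continuous_subtype_val.comp hψ)
  set S : Set κ := {β | ∃ (f : Cp X) (d : κ → I) (a : I),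
    (ψ f).1 (Function.update d β a) ≠ (ψ f).1 d} with hS
  by_cases hc : S.Countable
  · -- countably many coordinates are enough
    have h1 : ∀ (f : Cp X) (d d' : κ → I), (∀ β ∈ S, d β = d' β) → (ψ f).1 d = (ψ f).1 d' := by
      intro f d d' hdd
      have h2 : ∀ G : Finset κ, ∀ d1 : κ → I, (∀ β ∈ S, d1 β = d' β) →
          (ψ f).1 (G.piecewise d' d1) = (ψ f).1 d1 := by
        intro G
        induction G using Finset.induction_on with
        | empty => intro d1 _; rw [Finset.piecewise_empty]
        | insert a G ha ih =>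
          intro d1 hd1
          rw [Finset.piecewise_insert]
          have h3 : ∀ d2 : κ → I, (∀ β ∈ S, d2 β = d' β) →
              (ψ f).1 (Function.update d2 a (d' a)) = (ψ f).1 d2 := by
            intro d2 hd2
            by_cases h4 : d2 a = d' a
            · rw [← h4, Function.update_eq_self]
            · have h5 : a ∉ S := fun h => h4 (hd2 a h)
              by_contra h7
              exact h5 ⟨f, d2, d' a, h7⟩
          rw [h3, ih d1 hd1]
          intro β hβ
          by_cases hβG : β ∈ G
          · rw [Finset.piecewise_eq_of_mem _ _ _ hβG]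
          · rw [Finset.piecewise_eq_of_notMem _ _ _ hβG, hd1 β hβ]
      have h3 : d' ∈ closure {z | (ψ f).1 z = (ψ f).1 d} := by
        rw [mem_closure_iff]
        intro U hU hd'
        obtain ⟨G, u, hu, hG⟩ := exists_box hU hd'
        refine ⟨G.piecewise d' d, hG _ fun j hj => ?_, ?_⟩
        · rw [Finset.piecewise_eq_of_mem _ _ _ hj]
          exact (hu j hj).2
        · exact h2 G d hdd
      have h4 : IsClosed {z | (ψ f).1 z = (ψ f).1 d} := isClosed_eq (hΨ1 f) continuous_const
      rw [h4.closure_eq] at h3
      exact h3.symm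
    have : Countable S := hc.to_subtype
    let r : X → (S → I) := fun x t => e x t
    have hr : Continuous r := continuous_pi fun t => (continuous_apply (t : κ)).comp he
    have hri : Function.Injective r := by
      intro x x' hxx
      by_contra hne
      obtain ⟨f, hf⟩ := interp {x, x'} fun y => if y = x then 0 else 1
      have h5 : f.1 x = 0 := by rw [hf x (by simp), if_pos rfl]
      have h6 : f.1 x' = 1 := by rw [hf x' (by simp), if_neg (Ne.symm hne)]
      have h8 : (ψ f).1 (e x) = (ψ f).1 (e x') := by
        apply h1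
        intro β hβ
        exact congrFun hxx ⟨β, hβ⟩
      rw [hψe, hψe, h5, h6] at h8
      exact zero_ne_one h8
    exact (hr.isClosedEmbedding hri).isEmbedding.metrizableSpace
  · exfalso
    have h1 : ∀ β ∈ S, ∃ (pq : ℚ × ℚ) (G : Finset κ) (s : κ → ℕ) (a b : I) (f : Cp X),
        (∀ d : κ → I, (∀ j ∈ G, j ≠ β → d j = qI (s j)) → d β = a →
          (pq.1 : ℝ) * (ψ f).1 d + pq.2 ≤ 0) ∧
        (∀ d : κ → I, (∀ j ∈ G, j ≠ β → d j = qI (s j)) → d β = b →
          1 ≤ (pq.1 : ℝ) * (ψ f).1 d + pq.2) := by
      rintro β ⟨f, d0, a, hd0⟩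
      set u := (ψ f).1 (Function.update d0 β a) with hu
      set v := (ψ f).1 d0 with hv
      have huv : u ≠ v := hd0
      obtain ⟨p, hp⟩ : ∃ p : ℚ, 1 < (p : ℝ) * (v - u) := by
        rcases lt_or_gt_of_ne huv with h2 | h2
        · obtain ⟨p, hp⟩ := exists_rat_gt (1 / (v - u))
          refine ⟨p, ?_⟩
          rwa [div_lt_iff₀ (sub_pos.2 h2)] at hp
        · obtain ⟨p, hp⟩ := exists_rat_lt (1 / (v - u))
          refine ⟨p, ?_⟩
          rwa [lt_div_iff_of_neg (sub_neg.2 h2)] at hp
      obtain ⟨q', hq1, hq2⟩ := exists_rat_btwn (show 1 - (p : ℝ) * v < -((p : ℝ) * u) by linarith)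
      have hc1 : Continuous fun d => (p : ℝ) * (ψ f).1 d + q' :=
        ((continuous_const.mul (hΨ1 f)).add continuous_const)
      obtain ⟨G, s, hs⟩ := two_faces (U := {d | (p : ℝ) * (ψ f).1 d + q' < 0})
        (W := {d | 1 < (p : ℝ) * (ψ f).1 d + q'}) (isOpen_lt hc1 continuous_const)
        (isOpen_lt continuous_const hc1) (d := d0) (β := β) (a := a) (b := d0 β)
        (by
          show (p : ℝ) * u + q' < 0
          linarith)
        (by
          rw [Function.update_eq_self]
          show 1 < (p : ℝ) * v + q'
          linarith)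
      refine ⟨(p, q'), G, s, a, d0 β, f, ?_, ?_⟩
      · intro d hd hdβ
        exact le_of_lt ((hs d hd).1 hdβ)
      · intro d hd hdβ
        exact le_of_lt ((hs d hd).2 hdβ)
    have : Nonempty (Cp X) := ⟨⟨fun _ => 0, continuous_const⟩⟩
    choose! pq G s a b f hneg hpos using h1
    obtain ⟨c, hcf⟩ := uncountable_fiber pq S hc
    obtain ⟨S', hS'S, hS', t, ht⟩ := amalgN _ hcf G s
    have : Uncountable S' := by
      rw [← not_countable_iff]
      exact fun h => hS' (Set.countable_coe_iff.1 h)
    refine core3 hN (J := S') (fun e' f' => (c.1 : ℝ) * (ψ f').1 (extI S' t a b e') + c.2) ?_ ?_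
      (fun β => f β) ?_ ?_
    · intro f'
      exact (continuous_const.mul ((hΨ1 f').comp (continuous_extI S' t a b))).add continuous_const
    · intro e'
      exact (continuous_const.mul (hΨ2 _)).add continuous_const
    · intro d β hd
      have h2 := hneg β (hS'S β.2).1 (extI S' t a b d) (by
        intro j hj hjβ
        obtain ⟨h4, h5⟩ := ht β β.2 j hj hjβ
        rw [extI_not_mem h4, h5]) (by
        rw [extI_mem β.2]
        show lin _ _ (d β) = _
        rw [hd, lin_zero])
      rw [(hS'S β.2).2] at h2
      exact h2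
    · intro d β hd
      have h2 := hpos β (hS'S β.2).1 (extI S' t a b d) (by
        intro j hj hjβ
        obtain ⟨h4, h5⟩ := ht β β.2 j hj hjβ
        rw [extI_not_mem h4, h5]) (by
        rw [extI_mem β.2]
        show lin _ _ (d β) = _
        rw [hd, lin_one])
      rw [(hS'S β.2).2] at h2
      exact h2

/-- a face-separating continuous map from an uncountable cube gives copies of the cube of weight
`ω₁` -/
theorem embedding_of_faceSep {X : Type u} [TopologicalSpace X] [T2Space X] {S : Type v}
    [Uncountable S] {g : (S → I) → X} (hg : Continuous g) (hf : FaceSep g) (J : Type w)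
    (hJ : Cardinal.mk J = Cardinal.aleph 1) : ∃ h : (J → I) → X, IsEmbedding h := by
  classical
  obtain ⟨g', hg', hinj⟩ := injective_of_faceSep hg hf
  have h3 : Cardinal.lift.{v} (Cardinal.mk J) ≤ Cardinal.lift.{w} (Cardinal.mk S) := by
    have h5 : Cardinal.aleph 1 ≤ Cardinal.mk S := by
      rw [Cardinal.aleph_one_le_iff]
      exact Cardinal.aleph0_lt_mk_iff.2 inferInstance
    have h6 := Cardinal.lift_le.{w}.2 h5
    rw [hJ]
    simp only [Cardinal.lift_aleph, Ordinal.lift_one] at h6 ⊢
    exact h6
  obtain ⟨ι⟩ := Cardinal.lift_mk_le'.1 h3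
  have hq : Continuous fun (d : J → I) (s : S) =>
      if hs : ∃ i, ι i = s then d hs.choose else 0 := by
    apply continuous_pi
    intro s
    by_cases hs : ∃ i, ι i = s
    · simp only [hs, dif_pos]
      exact continuous_apply _
    · simp only [hs, dif_neg, not_false_eq_true]
      exact continuous_const
  have hqi : Function.Injective fun (d : J → I) (s : S) =>
      if hs : ∃ i, ι i = s then d hs.choose else 0 := by
    intro d d' hdd
    funext i
    have h4 := congrFun hdd (ι i)
    have hs : ∃ i', ι i' = ι i := ⟨i, rfl⟩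
    simp only [hs, dif_pos] at h4
    have h5 : hs.choose = i := ι.injective hs.choose_spec
    rwa [h5] at h4
  exact ⟨_, ((hg'.comp hq).isClosedEmbedding (hinj.comp hqi)).isEmbedding⟩

/-- the form used in the main theorem -/
theorem main_cube {X : Type u} [TopologicalSpace X] [CompactSpace X] [T2Space X]
    {κ : Type v} (e : X → κ → I) (he : Continuous e)
    (ψ : Cp X → Cp (κ → I)) (hψ : Continuous ψ)
    (hψe : ∀ f x, (ψ f).1 (e x) = f.1 x) (hm : ¬ TopologicalSpace.MetrizableSpace X)
    (J : Type w) (hJ : Cardinal.mk J = Cardinal.aleph 1) : ∃ h : (J → I) → X, IsEmbedding h := by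
  by_contra hno
  refine hm (metrizable_of_cube3 ?_ e he ψ hψ hψe)
  intro S _ g hg hf
  exact hno (embedding_of_faceSep hg hf J hJ)

end Pool.Agent.V8H78.TychCube
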